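import Pool.Agent.X197.WeakPs

/-!
# MP_bb2768_gt, Q1: a weakly pseudocompact ℝ-factorizable topological group need not be precompact

The example is `ℤ × Σ` with `Σ` the Σ-product in the compact group `{1, -1}^ℝ`.  If `q` is a point of the
power outside `Σ` then the one-point compactification of the locally compact space
`ℤ × ({1, -1}^ℝ \ {q})` is a compactification of the group in which the group is `G_δ`-dense:
every `G_δ` set containing the point at infinity traces on each sheet a `G_δ` neighbourhood of
`q`, which meets `Σ`.  Continuous functions depend on countably many coordinates.
-/

open Pool.Agent.X197.WeakPs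

namespace Pool.Agent.Results.MP_bb2768_gt.NotPrecompact

/-- There is an abelian Hausdorff topological group which is weakly pseudocompact and
`ℝ`-factorizable but not precompact. -/
theorem result : ∃ (G : Type) (_ : CommGroup G) (_ : TopologicalSpace G),
    IsTopologicalGroup G ∧ T2Space G ∧ WeaklyPseudocompact G ∧ RFactorizable G ∧
      ¬ Precompact G :=
  ⟨G, inferInstance, inferInstance, inferInstance, inferInstance, weaklyPseudocompact,
    rFactorizable, not_precompact⟩

end Pool.Agent.Results.MP_bb2768_gt.NotPrecompact
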